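import Pool.Agent.Results.MP_eb30e1_co.FewestMembers

/-! Upper bound for the number of adjacencies without FPP / with FPP. -/

namespace Pool.Agent.K9h50.FS

open Finset Pool.Agent.Results.MP_eb30e1_co.FewestMembers

open Classical in
/-- The number of adjacencies `r i ≺ r (i+1)` for which `r i` lacks the fixed point property and
`r (i+1)` has it. -/
noncomputable def countSwitch {α : Type} (T : ℕ) (r : ℕ → α → α → Prop) : ℕ :=
  ((range T).filter (fun i => ¬ FPP (r i) ∧ FPP (r (i + 1)))).card

section upper

variable {α : Type} [Fintype α] {T : ℕ} {r : ℕ → α → α → Prop}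

/-- Members with the fixed point property have at least `|α| - 1` strict pairs. -/
lemma le_of_fpp (hr : IsMaximalChain T r) (hα : 2 ≤ Fintype.card α) {i : ℕ} (hi : i ≤ T)
    (hF : FPP (r i)) : Fintype.card α ≤ i + 1 := by
  classical
  set G : SimpleGraph α := SimpleGraph.fromRel (r i) with hG
  have hadj : ∀ x y, G.Adj x y ↔ x ≠ y ∧ (r i x y ∨ r i y x) := by
    intro x y; rw [hG, SimpleGraph.fromRel_adj]
  by_cases hc : G.Connected
  · have h1 := hc.card_vert_le_card_edgeSet_add_one
    rw [Nat.card_eq_fintype_card] at h1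
    -- the edges are images of strict pairs
    set E : Finset (α × α) := (prs (r i)).filter (fun p => p.1 ≠ p.2) with hE
    have hsub : G.edgeSet ⊆ ((E.image (fun p => s(p.1, p.2)) : Finset (Sym2 α)) : Set (Sym2 α)) := by
      intro e he
      induction e using Sym2.ind with
      | _ x y =>
        rw [SimpleGraph.mem_edgeSet, hadj] at he
        obtain ⟨hne, h | h⟩ := he
        · rw [Finset.mem_coe, mem_image]
          exact ⟨(x, y), by rw [hE, mem_filter, mem_prs]; exact ⟨h, hne⟩, rfl⟩
        · rw [Finset.mem_coe, mem_image]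
          exact ⟨(y, x), by rw [hE, mem_filter, mem_prs]; exact ⟨h, hne.symm⟩, Sym2.eq_swap⟩
    have h2 : Nat.card G.edgeSet ≤ E.card := by
      have := Nat.card_mono (Finset.finite_toSet _) hsub
      refine this.trans ?_
      rw [Nat.card_coe_set_eq, Set.ncard_coe_finset]
      exact card_image_le
    have h3 : E.card + Fintype.card α = (prs (r i)).card := by
      have h4 : ((prs (r i)).filter (fun p => ¬ p.1 ≠ p.2)) =
          (univ : Finset α).image (fun x => (x, x)) := by
        ext ⟨x, y⟩
        rw [mem_filter, mem_prs]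
        simp only [mem_image, mem_univ, true_and, Prod.mk.injEq, not_not]
        constructor
        · rintro ⟨_, rfl⟩; exact ⟨x, rfl, rfl⟩
        · rintro ⟨z, rfl, rfl⟩; exact ⟨(hr.order i hi).1 z, rfl⟩
      have h5 := Finset.card_filter_add_card_filter_not (s := prs (r i)) (fun p => p.1 ≠ p.2)
      rw [h4, card_image_of_injective _ (fun x y h => (Prod.mk.injEq _ _ _ _ ▸ h).1),
        card_univ] at h5
      exact h5
    rw [card_prs hr i hi] at h3
    omega
  · exfalso
    have hne : Nonempty α := Fintype.card_pos_iff.1 (by omega)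
    rw [SimpleGraph.connected_iff] at hc
    have hp : ¬ G.Preconnected := fun h => hc ⟨h, hne⟩
    unfold SimpleGraph.Preconnected at hp
    push Not at hp
    obtain ⟨u, v, huv⟩ := hp
    obtain ⟨x, hx⟩ := hF (fun x => if G.Reachable u x then v else u) (by
      intro x y hxy
      by_cases hxy' : x = y
      · subst hxy'; exact (hr.order i hi).1 _
      · have hxyr : G.Adj x y := (hadj x y).2 ⟨hxy', Or.inl hxy⟩
        have : G.Reachable u x ↔ G.Reachable u y :=
          ⟨fun h => h.trans hxyr.reachable, fun h => h.trans hxyr.symm.reachable⟩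
        simp only [this]
        exact (hr.order i hi).1 _)
    split_ifs at hx with h
    · subst hx; exact huv h
    · subst hx; exact h (SimpleGraph.Reachable.refl _)

lemma countSwitch_le (hr : IsMaximalChain T r) (hα : 2 ≤ Fintype.card α)
    (hT : T = (Fintype.card α).choose 2) :
    countSwitch T r ≤ (Fintype.card α - 2) ^ 2 / 4 + 1 := by
  classical
  set n := Fintype.card α with hn
  set S := (range T).filter (fun i => ¬ FPP (r i) ∧ FPP (r (i + 1))) with hS
  have hmem : ∀ i ∈ S, i < T ∧ ¬ FPP (r i) ∧ FPP (r (i + 1)) := by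
    intro i hi
    rw [hS, mem_filter, mem_range] at hi
    exact hi
  have hb : ∀ i ∈ S, n ≤ i + 2 ∧ n ≤ 2 * (T - i) ∧ i < T := by
    intro i hi
    obtain ⟨h1, h2, h3⟩ := hmem i hi
    refine ⟨?_, ?_, h1⟩
    · have := le_of_fpp hr hα (i := i + 1) (by omega) h3
      omega
    · by_contra hlt
      exact h2 (fpp_of_few hr h1.le (by omega))
  have hinj : Set.InjOn (fun i => (i - (n - 2)) / 2) (S : Set ℕ) := by
    intro i hi j hj hij
    simp only at hij
    have h1 := hb i hi
    have h2 := hb j hj
    by_contra hne
    rcases Nat.lt_or_gt_of_ne hne with h | h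
    · have : j = i + 1 := by omega
      subst this
      exact (hmem _ hj).2.1 (hmem _ hi).2.2
    · have : i = j + 1 := by omega
      subst this
      exact (hmem _ hi).2.1 (hmem _ hj).2.2
  have hcard : S.card ≤ (range ((n - 2) ^ 2 / 4 + 1)).card := by
    refine card_le_card_of_injOn (fun i => (i - (n - 2)) / 2) ?_ hinj
    intro i hi
    have h1 := hb i hi
    simp only [coe_range, Set.mem_Iio]
    have h2 : 2 * T = n * (n - 1) := by
      rw [hT, Nat.choose_two_right, Nat.mul_div_cancel' (Nat.even_mul_pred_self n).two_dvd]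
    obtain ⟨m, hm⟩ : ∃ m, n = m + 2 := ⟨n - 2, by omega⟩
    rw [hm] at h1 h2 ⊢
    have h3 : m + 2 - 2 = m := by omega
    have h4 : m + 2 - 1 = m + 1 := by omega
    rw [h3]
    rw [h4] at h2
    have h5 : 2 * T = m * m + 3 * m + 2 := by rw [h2]; ring
    have h6 : m ^ 2 = m * m := by ring
    rw [h6]
    rcases Nat.even_or_odd' m with ⟨c, hc | hc⟩
    · have h7 : m * m = 4 * (c * c) := by rw [hc]; ring
      rw [h7] at h5 ⊢
      omega
    · have h7 : m * m = 4 * (c * c + c) + 1 := by rw [hc]; ring
      rw [h7] at h5 ⊢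
      omega
  rwa [card_range] at hcard

end upper

end Pool.Agent.K9h50.FS
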