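import Pool.Agent.K9h50.FS.A

/-! Construction of a chain with the maximal number of adjacencies. -/

namespace Pool.Agent.K9h50.FS

open Finset Pool.Agent.Results.MP_eb30e1_co.FewestMembers

/-- `t` is a time function: `t x y` is the index at which `x ≤ y` becomes true. -/
structure IsTime {α : Type} (T : ℕ) (t : α → α → ℕ) : Prop where
  diag : ∀ x y, t x y = 0 ↔ x = y
  uniq : ∀ j, 1 ≤ j → j ≤ T → ∃ a b, t a b = j ∧ ∀ x y, t x y = j → x = a ∧ y = b
  trans : ∀ x y z, t x y ≤ T → t y z ≤ T → t x z ≤ max (t x y) (t y z)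
  anti : ∀ x y, x ≠ y → t x y ≤ T → T < t y x
  total : ∀ x y, t x y ≤ T ∨ t y x ≤ T

lemma IsTime.chain {α : Type} {T : ℕ} {t : α → α → ℕ} (h : IsTime T t) :
    IsMaximalChain T (fun j x y => t x y ≤ j) where
  order := by
    intro j hj
    refine ⟨fun x => ?_, fun x y h1 h2 => ?_, fun x y z h1 h2 => ?_⟩
    · change t x x ≤ j
      rw [(h.diag x x).2 rfl]; omega
    · change t x y ≤ j at h1
      change t y x ≤ j at h2
      by_contra hne
      have := h.anti x y hne (by omega)
      omega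
    · change t x y ≤ j at h1
      change t y z ≤ j at h2
      change t x z ≤ j
      have := h.trans x y z (by omega) (by omega)
      omega
  start := by
    intro x y
    change t x y ≤ 0 ↔ _
    rw [Nat.le_zero, h.diag]
  step := by
    intro j hj
    obtain ⟨a, b, hab, hu⟩ := h.uniq (j + 1) (by omega) (by omega)
    refine ⟨a, b, by change ¬ t a b ≤ j; omega, fun x y => ?_⟩
    change t x y ≤ j + 1 ↔ t x y ≤ j ∨ _
    constructor
    · intro hxy
      by_cases he : t x y = j + 1
      · exact Or.inr (hu x y he)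
      · left; omega
    · rintro (hxy | ⟨rfl, rfl⟩)
      · omega
      · omega
  final := h.total

lemma isTime_equiv {α β : Type} (e : β ≃ α) {T : ℕ} {t : α → α → ℕ} (h : IsTime T t) :
    IsTime T (fun x y => t (e x) (e y)) where
  diag := by intro x y; rw [h.diag, e.apply_eq_iff_eq]
  uniq := by
    intro j h1 h2
    obtain ⟨a, b, hab, hu⟩ := h.uniq j h1 h2
    refine ⟨e.symm a, e.symm b, by simpa using hab, fun x y hxy => ?_⟩
    obtain ⟨rfl, rfl⟩ := hu _ _ hxy
    simp
  trans := fun x y z => h.trans _ _ _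
  anti := fun x y hxy => h.anti _ _ (fun he => hxy (e.injective he))
  total := fun x y => h.total _ _

/-- The point set: `m` leaves, and two more points `c = inr true`, `d = inr false`. -/
abbrev V (m : ℕ) := Fin m ⊕ Bool

/-- The inductive statement. -/
structure Good (m T : ℕ) (t : V m → V m → ℕ) : Prop where
  time : IsTime T t
  star : ∀ x y, t x y ≤ m ↔ x = y ∨ (∃ i, x = .inl i ∧ y = .inr true)
  bound : m + 2 * (m * m / 4) + 1 ≤ T
  alt : ∀ k, k ≤ m * m / 4 → ¬ FPP (fun x y => t x y ≤ m + 2 * k) ∧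
    FPP (fun x y => t x y ≤ m + 2 * k + 1)

/-- position of the elements of `V m`. -/
def pos (m : ℕ) : V m → ℕ
  | .inl i => i
  | .inr false => m
  | .inr true => m + 1

/-- times to the point `a`. -/
def na (m : ℕ) : V m → ℕ
  | .inl i => m + 4 + 2 * i
  | .inr false => 3 * m + 4
  | .inr true => m + 3

/-- new times inside `V m`. -/
def nv (m T : ℕ) (t : V m → V m → ℕ) (x y : V m) : ℕ :=
  if x = y then 0 else if t x y ≤ m then m + 5 + 2 * pos m x
  else if t x y ≤ T then t x y + 2 * m + 4 else T + 2 * m + 6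

/-- extended time function on `V m ⊕ Bool`. `a = inr false`, `b = inr true`. -/
def nt (m T : ℕ) (t : V m → V m → ℕ) : V m ⊕ Bool → V m ⊕ Bool → ℕ
  | .inl x, .inl y => nv m T t x y
  | .inl x, .inr false => na m x
  | .inl x, .inr true => 1 + pos m x
  | .inr false, .inr true => T + 2 * m + 5
  | .inr true, .inr false => T + 2 * m + 6
  | .inr true, .inr true => 0
  | .inr false, .inr false => 0
  | .inr _, .inl _ => T + 2 * m + 6

variable {m T : ℕ} {t : V m → V m → ℕ}

lemma pos_lt (x : V m) : pos m x < m + 2 := by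
  rcases x with i | b | b
  · have := i.2; simp only [pos]; omega
  · simp only [pos]; omega
  · simp only [pos]; omega

lemma pos_inj (x y : V m) (h : pos m x = pos m y) : x = y := by
  rcases x with i | b | b <;> rcases y with j | c | c <;> simp only [pos] at h
  · rw [Fin.ext h]
  · have := i.2; omega
  · have := i.2; omega
  · have := j.2; omega
  · rfl
  · omega
  · have := j.2; omega
  · omega
  · rfl

lemma pos_surj (j : ℕ) (hj : j < m + 2) : ∃ x : V m, pos m x = j := by
  by_cases h : j < m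
  · exact ⟨.inl ⟨j, h⟩, rfl⟩
  · by_cases h' : j = m
    · exact ⟨.inr false, h'.symm⟩
    · exact ⟨.inr true, by simp only [pos]; omega⟩

lemma na_cases (x : V m) : (∃ i : Fin m, x = .inl i ∧ na m x = m + 4 + 2 * i) ∨
    (x = .inr false ∧ na m x = 3 * m + 4) ∨ (x = .inr true ∧ na m x = m + 3) := by
  rcases x with i | b | b
  · exact Or.inl ⟨i, rfl, rfl⟩
  · exact Or.inr (Or.inl ⟨rfl, rfl⟩)
  · exact Or.inr (Or.inr ⟨rfl, rfl⟩)

lemma nv_cases (h : Good m T t) (x y : V m) : (x = y ∧ nv m T t x y = 0) ∨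
    (∃ i : Fin m, x = .inl i ∧ y = .inr true ∧ nv m T t x y = m + 5 + 2 * i ∧ t x y ≤ m) ∨
    (x ≠ y ∧ m < t x y ∧ t x y ≤ T ∧ nv m T t x y = t x y + 2 * m + 4) ∨
    (x ≠ y ∧ T < t x y ∧ nv m T t x y = T + 2 * m + 6) := by
  unfold nv
  split_ifs with h1 h2 h3
  · exact Or.inl ⟨h1, rfl⟩
  · right; left
    rcases (h.star x y).1 h2 with he | ⟨i, rfl, rfl⟩
    · exact absurd he h1
    · exact ⟨i, rfl, rfl, rfl, h2⟩
  · right; right; left
    exact ⟨h1, by omega, h3, rfl⟩
  · right; right; right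
    exact ⟨h1, by omega, rfl⟩

lemma star_le (h : Good m T t) (i : Fin m) : t (.inl i) (.inr true) ≤ m :=
  (h.star _ _).2 (Or.inr ⟨i, rfl, rfl⟩)

lemma nt_uniq (h : Good m T t) (j : ℕ) (h1 : 1 ≤ j) (h2 : j ≤ T + 2 * m + 5) :
    ∃ a b, nt m T t a b = j ∧ ∀ x y, nt m T t x y = j → x = a ∧ y = b := by
  have hbd := h.bound
  -- describe all pairs with time `j`
  have key : ∀ x y, nt m T t x y = j →
      (∃ u : V m, x = .inl u ∧ y = .inr true ∧ j = 1 + pos m u) ∨
      (x = .inl (.inr true) ∧ y = .inr false ∧ j = m + 3) ∨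
      (∃ i : Fin m, x = .inl (.inl i) ∧ y = .inr false ∧ j = m + 4 + 2 * i) ∨
      (∃ i : Fin m, x = .inl (.inl i) ∧ y = .inl (.inr true) ∧ j = m + 5 + 2 * i) ∨
      (x = .inl (.inr false) ∧ y = .inr false ∧ j = 3 * m + 4) ∨
      (∃ u v : V m, x = .inl u ∧ y = .inl v ∧ j = t u v + 2 * m + 4 ∧ m < t u v ∧ t u v ≤ T) ∨
      (x = .inr false ∧ y = .inr true ∧ j = T + 2 * m + 5) := by
    rintro (x | x | x) (y | y | y) hxy
    · rcases nv_cases h x y with ⟨e, e'⟩ | ⟨i, rfl, rfl, e, _⟩ | ⟨e1, e2, e3, e4⟩ | ⟨e1, e2, e3⟩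
      · change nv m T t x y = j at hxy; omega
      · change nv m T t _ _ = j at hxy
        right; right; right; left; exact ⟨i, rfl, rfl, by omega⟩
      · change nv m T t _ _ = j at hxy
        right; right; right; right; right; left
        exact ⟨x, y, rfl, rfl, by omega, e2, e3⟩
      · change nv m T t _ _ = j at hxy; omega
    · change na m x = j at hxy
      rcases na_cases x with ⟨i, rfl, e⟩ | ⟨rfl, e⟩ | ⟨rfl, e⟩
      · right; right; left; exact ⟨i, rfl, rfl, by omega⟩
      · right; right; right; right; left; exact ⟨rfl, rfl, by omega⟩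
      · right; left; exact ⟨rfl, rfl, by omega⟩
    · change 1 + pos m x = j at hxy
      left; exact ⟨x, rfl, rfl, hxy.symm⟩
    · change T + 2 * m + 6 = j at hxy; omega
    · change 0 = j at hxy; omega
    · change T + 2 * m + 5 = j at hxy
      right; right; right; right; right; right; exact ⟨rfl, rfl, hxy.symm⟩
    · change T + 2 * m + 6 = j at hxy; omega
    · change T + 2 * m + 6 = j at hxy; omega
    · change 0 = j at hxy; omega
  have hpos : ∀ u : V m, pos m u < m + 2 := pos_lt
  have hex : ∃ a b, nt m T t a b = j := by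
    by_cases c1 : j ≤ m + 2
    · obtain ⟨x, hx⟩ := pos_surj (m := m) (j - 1) (by omega)
      exact ⟨.inl x, .inr true, by change 1 + pos m x = j; omega⟩
    by_cases c2 : j = m + 3
    · exact ⟨.inl (.inr true), .inr false, c2.symm⟩
    by_cases c3 : j ≤ 3 * m + 3
    · have hlt : (j - m - 4) / 2 < m := by omega
      by_cases c4 : (j - m - 4) % 2 = 0
      · refine ⟨.inl (.inl ⟨(j - m - 4) / 2, hlt⟩), .inr false, ?_⟩
        change m + 4 + 2 * ((j - m - 4) / 2) = j
        omega
      · refine ⟨.inl (.inl ⟨(j - m - 4) / 2, hlt⟩), .inl (.inr true), ?_⟩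
        change nv m T t _ _ = j
        unfold nv
        rw [if_neg (by simp), if_pos (star_le h _)]
        change m + 5 + 2 * ((j - m - 4) / 2) = j
        omega
    by_cases c5 : j = 3 * m + 4
    · exact ⟨.inl (.inr false), .inr false, c5.symm⟩
    by_cases c6 : j ≤ T + 2 * m + 4
    · obtain ⟨a, b, hab, _⟩ := h.time.uniq (j - 2 * m - 4) (by omega) (by omega)
      refine ⟨.inl a, .inl b, ?_⟩
      change nv m T t _ _ = j
      unfold nv
      rw [if_neg, if_neg (by omega), if_pos (by omega)]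
      · omega
      · intro he
        rw [(h.time.diag a b).2 he] at hab
        omega
    · exact ⟨.inr false, .inr true, by change T + 2 * m + 5 = j; omega⟩
  obtain ⟨a, b, hab⟩ := hex
  refine ⟨a, b, hab, fun x y hxy => ?_⟩
  have k1 := key a b hab
  have k2 := key x y hxy
  rcases k1 with ⟨u, rfl, rfl, e⟩ | ⟨rfl, rfl, e⟩ | ⟨i, rfl, rfl, e⟩ | ⟨i, rfl, rfl, e⟩ |
    ⟨rfl, rfl, e⟩ | ⟨u, v, rfl, rfl, e, e1, e2⟩ | ⟨rfl, rfl, e⟩ <;>
  rcases k2 with ⟨u', rfl, rfl, e'⟩ | ⟨rfl, rfl, e'⟩ | ⟨i', rfl, rfl, e'⟩ | ⟨i', rfl, rfl, e'⟩ |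
    ⟨rfl, rfl, e'⟩ | ⟨u', v', rfl, rfl, e', e1', e2'⟩ | ⟨rfl, rfl, e'⟩
  all_goals first
    | exact ⟨rfl, rfl⟩
    | (exfalso; have := hpos u; omega)
    | (exfalso; have := hpos u'; omega)
    | (exfalso; omega)
    | (exfalso; have := i.2; omega)
    | (exfalso; have := i'.2; omega)
    | (exfalso; have := i'.2; have := i.2; omega)
    | (exfalso; have := i'.2; have := hpos u; omega)
    | (exfalso; have := i.2; have := hpos u'; omega)
    | (have h3 : pos m u' = pos m u := by omega
       rw [pos_inj _ _ h3]; exact ⟨rfl, rfl⟩)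
    | (have h3 : i' = i := Fin.ext (by omega)
       rw [h3]; exact ⟨rfl, rfl⟩)
    | (obtain ⟨a, b, hab, hu⟩ := h.time.uniq (t u v) (by omega) (by omega)
       obtain ⟨r1, r2⟩ := hu u v rfl
       obtain ⟨r3, r4⟩ := hu u' v' (by omega)
       rw [r1, r2, r3, r4]; exact ⟨rfl, rfl⟩)

end Pool.Agent.K9h50.FS
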