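import Pool.Agent.K9h50.FS.B

/-! The extended chain. -/

namespace Pool.Agent.K9h50.FS

open Finset Pool.Agent.Results.MP_eb30e1_co.FewestMembers

variable {m T : ℕ} {t : V m → V m → ℕ}

lemma na_bd (x : V m) : m + 3 ≤ na m x ∧ na m x ≤ 3 * m + 4 := by
  rcases na_cases x with ⟨i, -, e⟩ | ⟨-, e⟩ | ⟨-, e⟩
  · have := i.2; omega
  · omega
  · omega

lemma nv_trans (h : Good m T t) (x y z : V m) (h1 : nv m T t x y ≤ T + 2 * m + 5)
    (h2 : nv m T t y z ≤ T + 2 * m + 5) :
    nv m T t x z ≤ max (nv m T t x y) (nv m T t y z) := by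
  have hbd := h.bound
  rcases nv_cases h x y with ⟨e, e'⟩ | ⟨i, ex, ey, e, e5⟩ | ⟨e1, e2, e3, e4⟩ | ⟨e1, e2, e3⟩
  · subst e; exact le_max_right _ _
  · rcases nv_cases h y z with ⟨f, f'⟩ | ⟨j, fy, fz, f, f5⟩ | ⟨f1, f2, f3, f4⟩ | ⟨f1, f2, f3⟩
    · subst f; exact le_max_left _ _
    · rw [ey] at fy; exact absurd fy (by simp)
    · have ht := h.time.trans x y z (by omega) (by omega)
      rcases nv_cases h x z with ⟨g, g'⟩ | ⟨k, gx, gz, g, g5⟩ | ⟨g1, g2, g3, g4⟩ | ⟨g1, g2, g3⟩
      · omega
      · rw [ey, gz] at f1; exact absurd rfl f1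
      · omega
      · omega
    · omega
  · rcases nv_cases h y z with ⟨f, f'⟩ | ⟨j, fy, fz, f, f5⟩ | ⟨f1, f2, f3, f4⟩ | ⟨f1, f2, f3⟩
    · subst f; exact le_max_left _ _
    · have ht := h.time.trans x y z (by omega) (by omega)
      rcases nv_cases h x z with ⟨g, g'⟩ | ⟨k, gx, gz, g, g5⟩ | ⟨g1, g2, g3, g4⟩ | ⟨g1, g2, g3⟩
      · omega
      · have := k.2; omega
      · omega
      · omega
    · have ht := h.time.trans x y z (by omega) (by omega)
      rcases nv_cases h x z with ⟨g, g'⟩ | ⟨k, gx, gz, g, g5⟩ | ⟨g1, g2, g3, g4⟩ | ⟨g1, g2, g3⟩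
      · omega
      · have := k.2; omega
      · omega
      · omega
    · omega
  · omega

lemma nt_trans (h : Good m T t) (x y z : V m ⊕ Bool) (h1 : nt m T t x y ≤ T + 2 * m + 5)
    (h2 : nt m T t y z ≤ T + 2 * m + 5) :
    nt m T t x z ≤ max (nt m T t x y) (nt m T t y z) := by
  have hbd := h.bound
  rcases x with x | x | x <;> rcases y with y | y | y <;> rcases z with z | z | z
  all_goals first
    | exact nv_trans h x y z h1 h2
    | (change T + 2 * m + 6 ≤ T + 2 * m + 5 at h1; omega)
    | (change T + 2 * m + 6 ≤ T + 2 * m + 5 at h2; omega)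
    | exact le_max_left _ _
    | exact le_max_right _ _
    | skip
  · -- x y in V, z = a
    change na m x ≤ max (nv m T t x y) (na m y)
    change nv m T t x y ≤ _ at h1
    have b1 := na_bd x
    have b2 := na_bd y
    rcases nv_cases h x y with ⟨e, e'⟩ | ⟨i, ex, ey, e, e5⟩ | ⟨e1, e2, e3, e4⟩ | ⟨e1, e2, e3⟩
    · subst e; exact le_max_right _ _
    · subst ex
      have : na m (.inl i) = m + 4 + 2 * i := rfl
      omega
    · omega
    · omega
  · change 1 + pos m x ≤ max (nv m T t x y) (1 + pos m y)
    change nv m T t x y ≤ _ at h1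
    have b1 := pos_lt x
    have b2 := pos_lt y
    rcases nv_cases h x y with ⟨e, e'⟩ | ⟨i, ex, ey, e, e5⟩ | ⟨e1, e2, e3, e4⟩ | ⟨e1, e2, e3⟩
    · subst e; exact le_max_right _ _
    · omega
    · omega
    · omega
  · change 1 + pos m x ≤ max (na m x) (T + 2 * m + 5)
    have b1 := pos_lt x
    omega

lemma nt_time (h : Good m T t) : IsTime (T + 2 * m + 5) (nt m T t) where
  diag := by
    rintro (x | x | x) (y | y | y)
    · change nv m T t x y = 0 ↔ _
      rcases nv_cases h x y with ⟨e, e'⟩ | ⟨i, ex, ey, e, e5⟩ | ⟨e1, e2, e3, e4⟩ | ⟨e1, e2, e3⟩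
      · simp [e]; rw [← e]; subst e; exact e'
      · constructor
        · intro he; omega
        · intro he
          rw [ex, ey] at he
          simp at he
      · constructor
        · intro he; omega
        · intro he
          exact absurd (Sum.inl_injective he) e1
      · constructor
        · intro he; omega
        · intro he
          exact absurd (Sum.inl_injective he) e1
    · change na m x = 0 ↔ _
      have := na_bd x
      simp
      omega
    · change 1 + pos m x = 0 ↔ _
      simp
    · change T + 2 * m + 6 = 0 ↔ _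
      simp
    · change 0 = 0 ↔ _
      simp
    · change T + 2 * m + 5 = 0 ↔ _
      simp
    · change T + 2 * m + 6 = 0 ↔ _
      simp
    · change T + 2 * m + 6 = 0 ↔ _
      simp
    · change 0 = 0 ↔ _
      simp
  uniq := fun j h1 h2 => nt_uniq h j h1 h2
  trans := nt_trans h
  anti := by
    have hbd := h.bound
    rintro (x | x | x) (y | y | y) hne hle
    · change nv m T t x y ≤ _ at hle
      change _ < nv m T t y x
      have hne' : x ≠ y := fun he => hne (by rw [he])
      have hT : t x y ≤ T := by
        rcases nv_cases h x y with ⟨e, e'⟩ | ⟨i, ex, ey, e, e5⟩ | ⟨e1, e2, e3, e4⟩ | ⟨e1, e2, e3⟩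
        · exact absurd e hne'
        · omega
        · omega
        · omega
      have := h.time.anti x y hne' hT
      rcases nv_cases h y x with ⟨e, e'⟩ | ⟨i, ex, ey, e, e5⟩ | ⟨e1, e2, e3, e4⟩ | ⟨e1, e2, e3⟩
      · exact absurd e.symm hne'
      · omega
      · omega
      · omega
    all_goals first
      | exact absurd rfl hne
      | (change T + 2 * m + 6 ≤ T + 2 * m + 5 at hle; omega)
      | (change T + 2 * m + 5 < T + 2 * m + 6; omega)
  total := by
    have hbd := h.bound
    rintro (x | x | x) (y | y | y)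
    · change nv m T t x y ≤ _ ∨ nv m T t y x ≤ _
      have key : ∀ u v : V m, t u v ≤ T → nv m T t u v ≤ T + 2 * m + 5 := by
        intro u v huv
        rcases nv_cases h u v with ⟨e, e'⟩ | ⟨i, ex, ey, e, e5⟩ | ⟨e1, e2, e3, e4⟩ | ⟨e1, e2, e3⟩
        · omega
        · have := i.2; omega
        · omega
        · omega
      exact (h.time.total x y).imp (key x y) (key y x)
    · left; change na m x ≤ _; have := na_bd x; omega
    · left; change 1 + pos m x ≤ _; have := pos_lt x; omega
    · right; change na m y ≤ _; have := na_bd y; omega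
    · left; change 0 ≤ _; omega
    · left; change T + 2 * m + 5 ≤ _; omega
    · right; change 1 + pos m y ≤ _; have := pos_lt y; omega
    · right; change T + 2 * m + 5 ≤ _; omega
    · left; change 0 ≤ _; omega

/-- (F3) -/
lemma free_start (h : Good m T t) : ¬ FPP (fun x y => nt m T t x y ≤ m + 2) := by
  have hbd := h.bound
  rw [not_FPP_iff]
  refine ⟨fun x => if x = .inr false then .inr true else .inr false, ?_, ?_⟩
  · intro x y hxy
    have hd : ∀ z, nt m T t z z = 0 := fun z => ((nt_time h).diag z z).2 rfl
    by_cases hxe : x = y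
    · subst hxe
      change nt m T t _ _ ≤ _
      rw [hd]; omega
    · have h1 : x ≠ .inr false ∧ y ≠ .inr false := by
        constructor
        · rintro rfl
          rcases y with y | y | y
          · change T + 2 * m + 6 ≤ m + 2 at hxy; omega
          · exact hxe rfl
          · change T + 2 * m + 5 ≤ m + 2 at hxy; omega
        · rintro rfl
          rcases x with x | x | x
          · change na m x ≤ m + 2 at hxy; have := na_bd x; omega
          · exact hxe rfl
          · change T + 2 * m + 6 ≤ m + 2 at hxy; omega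
      change nt m T t (if x = .inr false then .inr true else .inr false)
        (if y = .inr false then .inr true else .inr false) ≤ m + 2
      rw [if_neg h1.1, if_neg h1.2, hd]
      omega
  · intro x hx
    by_cases hx' : x = .inr false
    · subst hx'; simp at hx
    · change (if x = .inr false then .inr true else .inr false) = x at hx
      rw [if_neg hx'] at hx
      exact hx' hx.symm

/-- (F1) -/
lemma fpp_mid (h : Good m T t) (i : ℕ) (hi : i ≤ m) :
    FPP (fun x y => nt m T t x y ≤ m + 3 + 2 * i) := by
  have hbd := h.bound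
  by_contra hF
  obtain ⟨f, hf, hfree⟩ := not_FPP_iff.1 hF
  have ho := (nt_time h).chain.order (m + 3 + 2 * i) (by
    have : i ≤ m := hi
    omega)
  have hinc := fun x => incomp_of_free ho hf hfree x
  -- f b = a
  have hb : f (.inr true) = .inr false := by
    rcases hfb : f (.inr true) with y | y | y
    · exfalso
      have := (hinc (.inr true)).2
      rw [hfb] at this
      apply this
      change 1 + pos m y ≤ _
      have := pos_lt y
      omega
    · rfl
    · exact absurd hfb (hfree _)
  -- f c ≤ a
  have hc := hf (.inl (.inr true)) (.inr true) (by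
    change 1 + (m + 1) ≤ _
    omega)
  rw [hb] at hc
  have hci := hinc (.inl (.inr true))
  rcases hfc : f (.inl (.inr true)) with y | y | y
  · rw [hfc] at hc hci
    change na m y ≤ _ at hc
    rcases na_cases y with ⟨j, rfl, e⟩ | ⟨rfl, e⟩ | ⟨rfl, e⟩
    · apply hci.2
      change nv m T t _ _ ≤ _
      unfold nv
      rw [if_neg (by simp), if_pos (star_le h _)]
      change m + 5 + 2 * j.1 ≤ m + 3 + 2 * i
      omega
    · omega
    · exact hfree _ hfc
  · rw [hfc] at hci
    apply hci.1
    change m + 3 ≤ _
    omega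
  · rw [hfc] at hci
    apply hci.1
    change 1 + (m + 1) ≤ _
    omega

/-- the fixed point free map in (F2) -/
def fm (m i : ℕ) (hi : i < m) : V m ⊕ Bool → V m ⊕ Bool
  | .inr true => .inr false
  | .inr false => .inr true
  | .inl (.inr true) => .inl (.inl ⟨i, hi⟩)
  | .inl (.inr false) => .inl (.inr true)
  | .inl (.inl l) => if l.1 < i then .inl (.inl ⟨i, hi⟩) else .inl (.inr true)

lemma fm_inl (i : ℕ) (hi : i < m) (x : V m) :
    fm m i hi (.inl x) = .inl (.inl ⟨i, hi⟩) ∨ fm m i hi (.inl x) = .inl (.inr true) := by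
  rcases x with l | x | x
  · change (if l.1 < i then _ else _) = _ ∨ (if l.1 < i then _ else _) = _
    split_ifs
    · exact Or.inl rfl
    · exact Or.inr rfl
  · exact Or.inr rfl
  · exact Or.inl rfl

/-- (F2) -/
lemma free_mid (h : Good m T t) (i : ℕ) (hi : i < m) :
    ¬ FPP (fun x y => nt m T t x y ≤ m + 4 + 2 * i) := by
  have hbd := h.bound
  have hd : ∀ z, nt m T t z z = 0 := fun z => ((nt_time h).diag z z).2 rfl
  rw [not_FPP_iff]
  refine ⟨fm m i hi, ?_, ?_⟩
  · intro x y hxy
    by_cases hxe : x = y
    · subst hxe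
      change nt m T t _ _ ≤ _
      rw [hd]; omega
    rcases x with x | x | x <;> rcases y with y | y | y
    · change nv m T t x y ≤ _ at hxy
      have hxe' : x ≠ y := fun e => hxe (by rw [e])
      rcases nv_cases h x y with ⟨e, e'⟩ | ⟨l, ex, ey, e, e5⟩ | ⟨e1, e2, e3, e4⟩ | ⟨e1, e2, e3⟩
      · exact absurd e hxe'
      · subst ex ey
        have hl : l.1 < i := by omega
        change nt m T t (if l.1 < i then .inl (.inl ⟨i, hi⟩) else .inl (.inr true))
          (.inl (.inl ⟨i, hi⟩)) ≤ _
        rw [if_pos hl, hd]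
        omega
      · omega
      · omega
    · change nt m T t (fm m i hi (.inl x)) (.inr true) ≤ _
      rcases fm_inl i hi x with e | e
      · rw [e]; change 1 + i ≤ _; omega
      · rw [e]; change 1 + (m + 1) ≤ _; omega
    · change nt m T t (fm m i hi (.inl x)) (.inr false) ≤ _
      rcases fm_inl i hi x with e | e
      · rw [e]; change m + 4 + 2 * i ≤ _; omega
      · rw [e]; change m + 3 ≤ _; omega
    all_goals first
      | exact absurd rfl hxe
      | (change T + 2 * m + 6 ≤ m + 4 + 2 * i at hxy; omega)
      | (change T + 2 * m + 5 ≤ m + 4 + 2 * i at hxy; omega)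
  · rintro (x | x | x)
    · rcases x with l | x | x
      · change (if l.1 < i then (.inl (.inl ⟨i, hi⟩) : V m ⊕ Bool) else .inl (.inr true)) ≠ _
        split_ifs with hl
        · intro he
          have := congrArg Fin.val (Sum.inl_injective (Sum.inl_injective he))
          simp only at this
          omega
        · simp
      · change (.inl (.inr true) : V m ⊕ Bool) ≠ .inl (.inr false)
        simp
      · change (.inl (.inl ⟨i, hi⟩) : V m ⊕ Bool) ≠ .inl (.inr true)
        simp
    · change (.inr true : V m ⊕ Bool) ≠ .inr false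
      simp
    · change (.inr false : V m ⊕ Bool) ≠ .inr true
      simp

/-- In the last phase the order is `r (j - 2 m - 4) ⊕ A_2`. -/
lemma nv_le_iff (h : Good m T t) (j : ℕ) (h1 : m ≤ j) (h2 : j ≤ T) (x y : V m) :
    nv m T t x y ≤ j + 2 * m + 4 ↔ t x y ≤ j := by
  rcases nv_cases h x y with ⟨e, e'⟩ | ⟨i, ex, ey, e, e5⟩ | ⟨e1, e2, e3, e4⟩ | ⟨e1, e2, e3⟩
  · subst e
    rw [(h.time.diag x x).2 rfl]
    omega
  · have := i.2; omega
  · omega
  · omega

lemma free_end (h : Good m T t) (j : ℕ) (h1 : m ≤ j) (h2 : j ≤ T)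
    (hF : ¬ FPP (fun x y => t x y ≤ j)) :
    ¬ FPP (fun x y => nt m T t x y ≤ j + 2 * m + 4) := by
  rw [not_FPP_iff] at hF ⊢
  obtain ⟨f, hf, hfree⟩ := hF
  refine ⟨fun x => match x with
    | .inl x => .inl (f x)
    | .inr true => .inr false
    | .inr false => .inr true, ?_, ?_⟩
  · rintro (x | x | x) (y | y | y) hxy
    · change nv m T t (f x) (f y) ≤ _
      change nv m T t x y ≤ _ at hxy
      rw [nv_le_iff h j h1 h2] at hxy ⊢
      exact hf x y hxy
    · change 1 + pos m (f x) ≤ _
      have := pos_lt (f x)
      omega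
    · change na m (f x) ≤ _
      have := na_bd (f x)
      omega
    · change T + 2 * m + 6 ≤ _ at hxy
      omega
    · change 0 ≤ _; omega
    · change T + 2 * m + 5 ≤ _ at hxy
      omega
    · change T + 2 * m + 6 ≤ _ at hxy
      omega
    · change T + 2 * m + 6 ≤ _ at hxy
      omega
    · change 0 ≤ _; omega
  · rintro (x | x | x)
    · intro he
      exact hfree x (Sum.inl_injective he)
    · simp
    · simp

lemma fpp_end (h : Good m T t) (j : ℕ) (h1 : m ≤ j) (h2 : j ≤ T)
    (hF : FPP (fun x y => t x y ≤ j)) :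
    FPP (fun x y => nt m T t x y ≤ j + 2 * m + 4) := by
  by_contra hG
  obtain ⟨f, hf, hfree⟩ := not_FPP_iff.1 hG
  have ho := (nt_time h).chain.order (j + 2 * m + 4) (by omega)
  have hinc := fun x => incomp_of_free ho hf hfree x
  have hV : ∀ x : V m, ∃ y : V m, f (.inl x) = .inl y := by
    intro x
    have hx := (hinc (.inl x)).1
    rcases hfx : f (.inl x) with y | y | y
    · exact ⟨y, rfl⟩
    · exfalso; rw [hfx] at hx
      apply hx
      change na m x ≤ _
      have := na_bd x
      omega
    · exfalso; rw [hfx] at hx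
      apply hx
      change 1 + pos m x ≤ _
      have := pos_lt x
      omega
  choose g hg using hV
  obtain ⟨x, hx⟩ := hF g (by
    intro x y hxy
    change t x y ≤ j at hxy
    change t (g x) (g y) ≤ j
    rw [← nv_le_iff h j h1 h2] at hxy ⊢
    have := hf (.inl x) (.inl y) hxy
    rw [hg, hg] at this
    exact this)
  exact hfree (.inl x) (by rw [hg, hx])

/-- the alternation -/
lemma nt_alt (h : Good m T t) (k : ℕ) (hk : k ≤ (m + 2) * (m + 2) / 4) :
    ¬ FPP (fun x y => nt m T t x y ≤ m + 2 + 2 * k) ∧
      FPP (fun x y => nt m T t x y ≤ m + 2 + 2 * k + 1) := by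
  have hbd := h.bound
  have hq : (m + 2) * (m + 2) / 4 = m * m / 4 + m + 1 := by
    have : (m + 2) * (m + 2) = m * m + 4 * (m + 1) := by ring
    rw [this]
    omega
  rw [hq] at hk
  rcases Nat.lt_or_ge m k with hmk | hmk
  · -- the last phase
    obtain ⟨k', rfl⟩ : ∃ k', k = k' + (m + 1) := ⟨k - (m + 1), by omega⟩
    have e1 : m + 2 + 2 * (k' + (m + 1)) = (m + 2 * k') + 2 * m + 4 := by ring
    have e2 : m + 2 + 2 * (k' + (m + 1)) + 1 = (m + 2 * k' + 1) + 2 * m + 4 := by ring
    have ha := h.alt k' (by omega)
    rw [e1, show m + 2 * k' + 2 * m + 4 + 1 = (m + 2 * k' + 1) + 2 * m + 4 by ring]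
    exact ⟨free_end h _ (by omega) (by omega) ha.1, fpp_end h _ (by omega) (by omega) ha.2⟩
  · constructor
    · rcases Nat.eq_zero_or_pos k with rfl | hk0
      · exact free_start h
      · obtain ⟨i, rfl⟩ : ∃ i, k = i + 1 := ⟨k - 1, by omega⟩
        have := free_mid h i (by omega)
        rw [show m + 2 + 2 * (i + 1) = m + 4 + 2 * i by ring]
        exact this
    · have := fpp_mid h k hmk
      rw [show m + 2 + 2 * k + 1 = m + 3 + 2 * k by ring]
      exact this

lemma fpp_equiv' {α β : Type} (e : β ≃ α) {r : α → α → Prop} (h : FPP r) :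
    FPP (fun x y => r (e x) (e y)) := by
  intro g hg
  obtain ⟨x, hx⟩ := h (fun x => e (g (e.symm x))) (by
    intro x y hxy
    exact hg (e.symm x) (e.symm y) (by simpa using hxy))
  refine ⟨e.symm x, ?_⟩
  exact e.injective (by simpa using hx)

/-- relabelling of the points. -/
noncomputable def lbl (m : ℕ) : Fin (m + 2) ≃ V m :=
  (Equiv.ofBijective (fun x : V m => (⟨pos m x, pos_lt x⟩ : Fin (m + 2)))
    ⟨fun x y h => pos_inj x y (congrArg Fin.val h), fun j => by
      obtain ⟨x, hx⟩ := pos_surj j.1 j.2
      exact ⟨x, Fin.ext hx⟩⟩).symm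

noncomputable def lbl' (m : ℕ) : V (m + 2) ≃ V m ⊕ Bool := Equiv.sumCongr (lbl m) (Equiv.refl Bool)

lemma good_succ (h : Good m T t) : Good (m + 2) (T + 2 * m + 5)
    (fun x y => nt m T t (lbl' m x) (lbl' m y)) where
  time := isTime_equiv (lbl' m) (nt_time h)
  star := by
    have hbd := h.bound
    have hd : ∀ z, nt m T t z z = 0 := fun z => ((nt_time h).diag z z).2 rfl
    intro x y
    by_cases hxy : x = y
    · subst hxy
      simp [hd]
    · simp only [hxy, false_or]
      rcases x with x | x | x <;> rcases y with y | y | y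
      · have : x ≠ y := fun e => hxy (by rw [e])
        have h1 : lbl m x ≠ lbl m y := fun e => this ((lbl m).injective e)
        constructor
        · intro hle
          change nv m T t (lbl m x) (lbl m y) ≤ _ at hle
          rcases nv_cases h (lbl m x) (lbl m y) with ⟨e, e'⟩ | ⟨i, ex, ey, e, e5⟩ |
            ⟨e1, e2, e3, e4⟩ | ⟨e1, e2, e3⟩
          · exact absurd e h1
          · omega
          · omega
          · omega
        · rintro ⟨i, hi1, hi2⟩
          simp at hi2
      · constructor
        · intro hle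
          change na m (lbl m x) ≤ _ at hle
          have := na_bd (lbl m x)
          omega
        · rintro ⟨i, hi1, hi2⟩
          simp at hi2
      · constructor
        · intro hle
          exact ⟨x, rfl, rfl⟩
        · intro _
          change 1 + pos m (lbl m x) ≤ _
          have := pos_lt (lbl m x)
          omega
      · constructor
        · intro hle
          change T + 2 * m + 6 ≤ _ at hle
          omega
        · rintro ⟨i, hi1, hi2⟩
          simp at hi1
      · exact absurd rfl hxy
      · constructor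
        · intro hle
          change T + 2 * m + 5 ≤ _ at hle
          omega
        · rintro ⟨i, hi1, hi2⟩
          simp at hi1
      · constructor
        · intro hle
          change T + 2 * m + 6 ≤ _ at hle
          omega
        · rintro ⟨i, hi1, hi2⟩
          simp at hi1
      · constructor
        · intro hle
          change T + 2 * m + 6 ≤ _ at hle
          omega
        · rintro ⟨i, hi1, hi2⟩
          simp at hi1
      · exact absurd rfl hxy
  bound := by
    have hbd := h.bound
    have hq : (m + 2) * (m + 2) / 4 = m * m / 4 + m + 1 := by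
      have : (m + 2) * (m + 2) = m * m + 4 * (m + 1) := by ring
      rw [this]
      omega
    rw [hq]
    omega
  alt := by
    intro k hk
    have := nt_alt h k hk
    refine ⟨fun hF => this.1 (fpp_equiv (lbl' m) hF), ?_⟩
    exact fpp_equiv' (lbl' m) this.2

/-! ### Base cases and the final construction -/

def t0 (x y : V 0) : ℕ := if x = y then 0 else if x = .inr true then 1 else 2

lemma good_zero : Good 0 1 t0 where
  time := by
    refine ⟨by decide, ?_, by decide, by decide, by decide⟩
    intro j h1 h2
    obtain rfl : j = 1 := by omega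
    decide
  star := by decide
  bound := by norm_num
  alt := by
    intro k hk
    obtain rfl : k = 0 := by omega
    unfold FPP
    decide

def t1 (x y : V 1) : ℕ := if x = y then 0 else
  if x = .inl 0 ∧ y = .inr true then 1 else
  if x = .inl 0 ∧ y = .inr false then 2 else
  if x = .inr true ∧ y = .inr false then 3 else 4

lemma good_one : Good 1 3 t1 where
  time := by
    refine ⟨by decide, ?_, by decide, by decide, by decide⟩
    intro j h1 h2
    interval_cases j <;> decide
  star := by decide
  bound := by norm_num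
  alt := by
    intro k hk
    obtain rfl : k = 0 := by omega
    unfold FPP
    decide

lemma exists_good (m : ℕ) : ∃ t, Good m ((m + 2).choose 2) t := by
  induction m using Nat.twoStepInduction with
  | zero => exact ⟨t0, good_zero⟩
  | one => exact ⟨t1, good_one⟩
  | more m ih _ =>
    obtain ⟨t, ht⟩ := ih
    refine ⟨fun x y => nt m ((m + 2).choose 2) t (lbl' m x) (lbl' m y), ?_⟩
    · have e : (m + 2 + 2).choose 2 = (m + 2).choose 2 + 2 * m + 5 := by
        rw [Nat.choose_succ_succ' (m + 3) 1, Nat.choose_succ_succ' (m + 2) 1]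
        simp
        omega
      rw [e]
      exact good_succ ht

lemma exists_chain (n : ℕ) (hn : 2 ≤ n) : ∃ r : ℕ → Fin n → Fin n → Prop,
    IsMaximalChain (n.choose 2) r ∧ (n - 2) ^ 2 / 4 + 1 ≤ countSwitch (n.choose 2) r := by
  classical
  obtain ⟨m, rfl⟩ : ∃ m, n = m + 2 := ⟨n - 2, by omega⟩
  obtain ⟨t, ht⟩ := exists_good m
  refine ⟨fun j x y => t (lbl m x) (lbl m y) ≤ j, (isTime_equiv (lbl m) ht.time).chain, ?_⟩
  have e : (m + 2 - 2) ^ 2 / 4 = m * m / 4 := by
    rw [show m + 2 - 2 = m by omega, sq]
  rw [e]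
  unfold countSwitch
  have hsub : (range (m * m / 4 + 1)).image (fun k => m + 2 * k) ⊆
      (range ((m + 2).choose 2)).filter (fun i =>
        ¬ FPP ((fun (j : ℕ) (x y : Fin (m + 2)) => t (lbl m x) (lbl m y) ≤ j) i) ∧
        FPP ((fun (j : ℕ) (x y : Fin (m + 2)) => t (lbl m x) (lbl m y) ≤ j) (i + 1))) := by
    intro i hi
    rw [mem_image] at hi
    obtain ⟨k, hk, rfl⟩ := hi
    rw [mem_range] at hk
    rw [mem_filter, mem_range]
    have hbd := ht.bound
    have ha := ht.alt k (by omega)
    refine ⟨by omega, fun hF => ha.1 (fpp_equiv (lbl m) hF), fpp_equiv' (lbl m) ha.2⟩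
  have := card_le_card hsub
  rw [card_image_of_injective _ (fun a b h => by simpa using h), card_range] at this
  exact this

end Pool.Agent.K9h50.FS
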